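import Pool.Agent.V1157.CE.Main

/-!
# Bloch's conjecture for correspondences on surfaces: commutation with all correspondences

A self-correspondence `Γ` of a complex surface `X` acts as zero on `H^{2,0}(X)` if and only if it is
homologically equivalent to a degenerate one (one through curves), by the theorem of Lefschetz on
classes of type `(1, 1)`; `F^2` is the Albanese kernel. The following are equivalent:

1. Bloch's conjecture for all surfaces `X`: if `Γ` acts as zero on `H^{2,0}(X)`, then it acts as
  zero on `F^2`;
2. for all surfaces `X`, homologically trivial self-correspondences commute on `F^2` with all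
  self-correspondences;
3. there is `D` such that for all surfaces `X` the homologically trivial self-correspondences define
  a space of operators on `F^2` of dimension at most `D` over `ℚ`;
4. there is a non-zero multilinear polynomial `∑ c(σ) W_{σ(0)} ⋯ W_{σ(d)}` which vanishes on `F^2`
  for all surfaces `X` and all self-correspondences `W_i` of which `W_0` is homologically trivial.

Proof: if a homologically trivial `Γ` is not zero on `F^2` of `S`, take a complete intersection
surface `V` in `S^N`; its projections `p_i` to `S` satisfy `p_j_* p_i^* = 0` on `F^2` for `i ≠ j`.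
So the correspondences `p_j^* p_i_*` and `p_j^* Γ_* p_i_*` of `V` act on `F^2` as matrix units and
as their products with `Γ`.
-/

open CategoryTheory AlgebraicGeometry

universe u v w

namespace Pool.Agent.Results.MP_31564d_ag.CentralOrBounded

open Pool.Agent.H914 Pool.Agent.H914.VarClass Pool.Agent.H914.VarClass.Obj Pool.Agent.W492.BB
  Pool.Agent.TH133 Pool.Agent.V1157.BD Pool.Agent.V1157.CE

theorem result {k : Type u} [Field k] {𝒱 : VarClass k} {C : TheoryData.{u, v, 0} 𝒱 ℚ}
    [IsChowProj C] {K : Type w} [Field K] (H : WeilTheoryData.{u, v, w} C K) [IsWeilProj H]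
    (hP : ∀ (S : 𝒱.Obj) (N : ℕ), S.dim = 2 → HasPower C 2 N S) :
    List.TFAE [BlochSelf H, Central H, ∃ D, DimAtMost H D,
      ∃ (d : ℕ) (c : Equiv.Perm (Fin (d + 1)) → ℚ), c ≠ 0 ∧ MixedIdentity H d c] :=
  main hP

end Pool.Agent.Results.MP_31564d_ag.CentralOrBounded
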