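import Pool.Agent.V1151.BC.Main

/-!
# Bloch's conjecture for correspondences on surfaces is equivalent to its cases of square-zero,
symmetric and antisymmetric correspondences, to the finiteness of the orbits of the homologically
trivial automorphisms, and to the commutation of homologically equivalent idempotents (involutions)
-/

open CategoryTheory AlgebraicGeometry

universe u v w

namespace Pool.Agent.Results.MP_31564d_ag.OrbitsAndCommutation

open Pool.Agent.H914 Pool.Agent.H914.VarClass Pool.Agent.H914.VarClass.Obj Pool.Agent.W492.BB
  Pool.Agent.W550.Corr Pool.Agent.TH133 Pool.Agent.Y152.AS Pool.Agent.V1157.RC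
  Pool.Agent.V1151.BC

/-- Consider a class of varieties, closed under products, such that any two surfaces `S` and `T` of
the class are covered by a complete intersection surface `V ⊆ S × T` of the class, as in
`HasIntersection` (for example all smooth projective varieties over `ℂ`). The following statements
are equivalent.

1. Bloch's conjecture: for all surfaces `X`, every `Z ∈ CH^2(X × X)_ℚ` which is homologically
   equivalent to a degenerate correspondence (over `ℂ`: which acts as zero on `H^{2,0}(X)`) acts as
   zero on the Albanese kernel `F^2 CH_0(X)_ℚ`.
2. For all surfaces `X`, every homologically trivial `W` with `W ∘ W = 0` acts as zero on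
   `F^2 CH_0(X)_ℚ`.
3. For all surfaces `X`, every homologically trivial symmetric `W = ᵗW` acts as zero on
   `F^2 CH_0(X)_ℚ`.
4. For all surfaces `X`, every homologically trivial antisymmetric `W = -ᵗW` acts as zero on
   `F^2 CH_0(X)_ℚ`.
5. For all surfaces `X` and every automorphism `g` of the Chow motive of `X` which is homologically
   equivalent to the identity, the orbits of `g` on `F^2 CH_0(X)_ℚ` are finite (`g ^ n α = α` for
   some `n > 0` which may depend on `α`).
6. For all surfaces `X`, homologically equivalent idempotents `e`, `f` in `CH^2(X × X)_ℚ` commute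
   on `F^2 CH_0(X)_ℚ`.
7. For all surfaces `X`, all idempotents `e` in `CH^2(X × X)_ℚ` and all `g` as in 5, the conjugate
   idempotents `e` and `g e g⁻¹` commute on `F^2 CH_0(X)_ℚ`.
8. For all surfaces `X`, homologically equivalent involutions `s`, `t` of the Chow motive of `X`
   commute on `F^2 CH_0(X)_ℚ`. -/
theorem result {k : Type u} [Field k] {𝒱 : VarClass k} {C : TheoryData.{u, v, 0} 𝒱 ℚ}
    [IsChowProj C] {K : Type w} [Field K] (H : WeilTheoryData.{u, v, w} C K) [IsWeilProj H]
    (hI : ∀ S T : 𝒱.Obj, S.dim = 2 → T.dim = 2 → HasIntersection C 2 S T) :
    List.TFAE [Bloch H, HomSqZero H, HomSymmetric H, HomAntisymmetric H,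
      AutOrbits H, IdemCommute H, ConjCommute H, InvolCommute H] :=
  main H hI

end Pool.Agent.Results.MP_31564d_ag.OrbitsAndCommutation
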